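import Pool.Agent.helper36.PP.SpecA
import Pool.Agent.helper36.PP.PRB

/-!
# pp:MS (helper69): sums over the preimages of a polynomial are measurable
-/

set_option autoImplicit false

open Complex Metric Set Filter Topology MeasureTheory MPS

noncomputable section

namespace PPS

/-- Measurable pieces on which `f` is injective. -/
theorem MS_cover (f : Polynomial ℂ) : ∃ U : ℕ → Set ℂ, (∀ j, MeasurableSet (U j)) ∧
    (∀ j, InjOn (fun y => f.eval y) (U j)) ∧ Pairwise (Function.onFun Disjoint U) ∧
    (⋃ j, U j) = {y : ℂ | fd f y ≠ 0} := by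
  classical
  have hopen : IsOpen {y : ℂ | fd f y ≠ 0} := by
    have h1 : Continuous fun y : ℂ => fd f y := by
      unfold fd
      exact f.derivative.continuous
    exact isOpen_ne_fun h1 continuous_const
  have hloc : ∀ y ∈ {y : ℂ | fd f y ≠ 0}, ∃ V : Set ℂ, IsOpen V ∧ y ∈ V ∧
      V ⊆ {y : ℂ | fd f y ≠ 0} ∧ InjOn (fun y => f.eval y) V := by
    intro y hy
    have h1 : HasStrictDerivAt (fun y => f.eval y) (fd f y) y := f.hasStrictDerivAt y
    have h2 := HasStrictDerivAt.eventually_left_inverse h1 hy
    obtain ⟨V, hV, hVo, hyV⟩ := _root_.mem_nhds_iff.1 (Filter.inter_mem h2 (hopen.mem_nhds hy))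
    refine ⟨V, hVo, hyV, fun z hz => (hV hz).2, ?_⟩
    intro a ha b hb hab
    have ha' := (hV ha).1
    have hb' := (hV hb).1
    simp only [Set.mem_ofPred_eq] at ha' hb'
    rw [← ha', ← hb']
    exact congrArg _ hab
  choose! V hVo hyV hVs hVi using hloc
  obtain ⟨T, hTS, hTc, hTs⟩ := TopologicalSpace.countable_cover_nhdsWithin
    (s := {y : ℂ | fd f y ≠ 0}) (f := V)
    (fun y hy => mem_nhdsWithin_of_mem_nhds ((hVo y hy).mem_nhds (hyV y hy)))
  rcases T.eq_empty_or_nonempty with hT | hT
  · subst hT
    refine ⟨fun _ => ∅, fun _ => MeasurableSet.empty, fun _ => by simp, ?_, ?_⟩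
    · intro i j _
      simp [Function.onFun]
    · simp only [Set.mem_empty_iff_false, Set.iUnion_of_empty, Set.iUnion_empty] at hTs ⊢
      exact (Set.subset_empty_iff.1 hTs).symm
  · obtain ⟨e, he⟩ := hTc.exists_eq_range hT
    have heT : ∀ j, e j ∈ {y : ℂ | fd f y ≠ 0} := by
      intro j
      apply hTS
      rw [he]
      exact Set.mem_range_self j
    refine ⟨disjointed fun j => V (e j), ?_, ?_, disjoint_disjointed _, ?_⟩
    · intro j
      exact MeasurableSet.disjointed (fun i => (hVo _ (heT i)).measurableSet) j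
    · intro j
      exact (hVi _ (heT j)).mono (disjointed_subset _ _)
    · rw [iUnion_disjointed]
      apply Set.Subset.antisymm
      · exact Set.iUnion_subset fun j => hVs _ (heT j)
      · intro y hy
        have h1 := hTs hy
        rw [Set.mem_iUnion₂] at h1
        obtain ⟨t, ht, hyt⟩ := h1
        rw [he] at ht
        obtain ⟨j, rfl⟩ := ht
        exact Set.mem_iUnion.2 ⟨j, hyt⟩

/-- Away from the critical values the multiset of preimages is its finset. -/
theorem MS_val (f : Polynomial ℂ) (hf : 1 ≤ f.natDegree) (z : ℂ) (hz : z ∉ CV f) :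
    (pre f z).toFinset.val = pre f z := by
  have h1 := (PRB f hf).2.2.1 z hz
  rw [Multiset.toFinset_val]
  exact h1.dedup

theorem MS_sum {M : Type*} [AddCommMonoid M] (f : Polynomial ℂ) (hf : 1 ≤ f.natDegree) (z : ℂ)
    (hz : z ∉ CV f) (φ : ℂ → M) :
    ((pre f z).map φ).sum = ∑ y ∈ (pre f z).toFinset, φ y := by
  rw [Finset.sum, MS_val f hf z hz]

theorem MS_mem (f : Polynomial ℂ) (hf : 1 ≤ f.natDegree) (z : ℂ) (y : ℂ) :
    y ∈ (pre f z).toFinset ↔ f.eval y = z := by
  rw [Multiset.mem_toFinset]
  exact (PRB f hf).1 z y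

/-- One piece: the sum over the preimages in a piece where `f` is injective. -/
theorem MS_piece (f : Polynomial ℂ) (hf : 1 ≤ f.natDegree) (U : Set ℂ)
    (hi : InjOn (fun y => f.eval y) U) (φ : ℂ → ENNReal) (z : ℂ) (hz : z ∉ CV f) :
    Function.extend (U.domRestrict fun y => f.eval y) (fun y => φ y) (fun _ => 0) z =
      ∑ y ∈ (pre f z).toFinset, U.indicator φ y := by
  classical
  by_cases h : ∃ a, (U.domRestrict fun y => f.eval y) a = z
  · obtain ⟨a, ha⟩ := h
    have hinj : Function.Injective (U.domRestrict fun y => f.eval y) := by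
      rw [← Set.injOn_iff_injective]
      exact hi
    rw [← ha, hinj.extend_apply]
    have ha' : f.eval (a : ℂ) = z := ha
    rw [ha, Finset.sum_eq_single (a : ℂ)]
    · rw [Set.indicator_of_mem a.2]
    · intro b hb hne
      apply Set.indicator_of_notMem
      intro hbU
      apply hne
      apply hi hbU a.2
      have hb' := (MS_mem f hf z b).1 hb
      show f.eval b = f.eval (a : ℂ)
      rw [hb', ha']
    · intro hna
      exact absurd ((MS_mem f hf z a).2 ha') hna
  · rw [Function.extend_apply' _ _ _ h]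
    symm
    apply Finset.sum_eq_zero
    intro b hb
    apply Set.indicator_of_notMem
    intro hbU
    exact h ⟨⟨b, hbU⟩, (MS_mem f hf z b).1 hb⟩

theorem MS_enn (f : Polynomial ℂ) (hf : 1 ≤ f.natDegree) (φ : ℂ → ENNReal) (hφ : Measurable φ) :
    Measurable fun z => ((pre f z).map φ).sum := by
  classical
  obtain ⟨U, hUm, hUi, hUd, hUu⟩ := MS_cover f
  have hcont : Continuous fun y : ℂ => f.eval y := f.continuous
  have hemb : ∀ j, MeasurableEmbedding ((U j).domRestrict fun y => f.eval y) := by
    intro j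
    exact ContinuousOn.measurableEmbedding (hUm j) hcont.continuousOn (hUi j)
  have hmeas : Measurable fun z => ∑' j,
      Function.extend ((U j).domRestrict fun y => f.eval y) (fun y => φ y) (fun _ => 0) z := by
    apply Measurable.tsum
    intro j
    exact (hemb j).measurable_extend (hφ.comp measurable_subtype_coe) measurable_const
  refine hmeas.measurable_of_countable_ne ?_
  refine (((PRB f hf).2.2.2.2.1).countable).mono ?_
  intro z hz
  by_contra hcv
  apply hz
  rw [MS_sum f hf z hcv]
  have h1 : ∀ j, Function.extend ((U j).domRestrict fun y => f.eval y) (fun y => φ y) (fun _ => 0) z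
      = ∑ y ∈ (pre f z).toFinset, (U j).indicator φ y := fun j =>
    MS_piece f hf (U j) (hUi j) φ z hcv
  simp only [h1]
  rw [Summable.tsum_finsetSum (fun _ _ => ENNReal.summable)]
  apply Finset.sum_congr rfl
  intro y hy
  have hy' := (MS_mem f hf z y).1 hy
  have hy0 : fd f y ≠ 0 := by
    intro h0
    exact hcv ⟨y, h0, hy'⟩
  have hyU : y ∈ ⋃ j, U j := by
    rw [hUu]
    exact hy0
  obtain ⟨j, hj⟩ := Set.mem_iUnion.1 hyU
  rw [tsum_eq_single j]
  · rw [Set.indicator_of_mem hj]
  · intro i hij
    apply Set.indicator_of_notMem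
    intro hi
    exact (Set.disjoint_left.1 (hUd hij)) hi hj

theorem MS_toReal (s : Multiset ℂ) (φ : ℂ → ℝ) :
    (s.map φ).sum = ((s.map fun y => ENNReal.ofReal (φ y)).sum).toReal -
      ((s.map fun y => ENNReal.ofReal (-φ y)).sum).toReal ∧
      (s.map fun y => ENNReal.ofReal (φ y)).sum ≠ ⊤ ∧
      (s.map fun y => ENNReal.ofReal (-φ y)).sum ≠ ⊤ := by
  induction s using Multiset.induction_on with
  | empty => simp
  | cons a s ih =>
    obtain ⟨h1, h2, h3⟩ := ih
    refine ⟨?_, ?_, ?_⟩
    · simp only [Multiset.map_cons, Multiset.sum_cons]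
      rw [ENNReal.toReal_add ENNReal.ofReal_ne_top h2, ENNReal.toReal_add ENNReal.ofReal_ne_top h3,
        h1, ENNReal.toReal_ofReal', ENNReal.toReal_ofReal']
      rcases le_total 0 (φ a) with h | h
      · rw [max_eq_left h, max_eq_right (by linarith)]
        ring
      · rw [max_eq_right h, max_eq_left (by linarith)]
        ring
    · simp only [Multiset.map_cons, Multiset.sum_cons]
      exact ENNReal.add_ne_top.2 ⟨ENNReal.ofReal_ne_top, h2⟩
    · simp only [Multiset.map_cons, Multiset.sum_cons]
      exact ENNReal.add_ne_top.2 ⟨ENNReal.ofReal_ne_top, h3⟩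

theorem MS_real (f : Polynomial ℂ) (hf : 1 ≤ f.natDegree) (φ : ℂ → ℝ) (hφ : Measurable φ) :
    Measurable fun z => ((pre f z).map φ).sum := by
  have h1 := MS_enn f hf (fun y => ENNReal.ofReal (φ y)) hφ.ennreal_ofReal
  have h2 := MS_enn f hf (fun y => ENNReal.ofReal (-φ y)) hφ.neg.ennreal_ofReal
  have h3 := h1.ennreal_toReal.sub h2.ennreal_toReal
  have h4 : (fun z => ((pre f z).map φ).sum) =
      (fun z => (((pre f z).map fun y => ENNReal.ofReal (φ y)).sum).toReal) -
      fun z => (((pre f z).map fun y => ENNReal.ofReal (-φ y)).sum).toReal := by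
    funext z
    exact (MS_toReal (pre f z) φ).1
  rw [h4]
  exact h3

theorem MS_cplx (s : Multiset ℂ) (φ : ℂ → ℂ) :
    (s.map φ).sum = (((s.map fun y => (φ y).re).sum : ℝ) : ℂ) +
      (((s.map fun y => (φ y).im).sum : ℝ) : ℂ) * I := by
  induction s using Multiset.induction_on with
  | empty => simp
  | cons a s ih =>
    simp only [Multiset.map_cons, Multiset.sum_cons]
    rw [ih]
    push_cast
    nth_rewrite 1 [← Complex.re_add_im (φ a)]
    ring

theorem MS : MS_stmt := by
  intro f hf
  refine ⟨MS_enn f hf, MS_real f hf, ?_⟩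
  intro φ hφ
  have h1 := MS_real f hf (fun y => (φ y).re) (Complex.measurable_re.comp hφ)
  have h2 := MS_real f hf (fun y => (φ y).im) (Complex.measurable_im.comp hφ)
  have h3 := (Complex.measurable_ofReal.comp h1).add
    ((Complex.measurable_ofReal.comp h2).mul (measurable_const (a := I)))
  have h4 : (fun z => ((pre f z).map φ).sum) = fun z =>
      ((((pre f z).map fun y => (φ y).re).sum : ℝ) : ℂ) +
      ((((pre f z).map fun y => (φ y).im).sum : ℝ) : ℂ) * I := by
    funext z
    exact MS_cplx (pre f z) φ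
  rw [h4]
  exact h3

end PPS
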