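import Pool.Agent.helper36.PP.SpecA
import Pool.Agent.helper69.PP.MS

/-!
# pp:MI (helper69): measurability, positivity of the deficit
-/

set_option autoImplicit false

open Complex Metric Set Filter Topology MeasureTheory MPS

noncomputable section

namespace PPS

theorem MI_poly (p : Polynomial ℂ) : Measurable fun y : ℂ => p.eval y :=
  p.continuous.measurable

theorem MI_BB {k : ℕ} [NeZero k] (b g : ZMod k → ℂ) : Measurable (BB b g) := by
  unfold BB
  refine Finset.measurable_sum _ fun i _ => ?_
  exact (((measurable_id.sub_const _).pow_const 2).const_div 1).add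
    ((measurable_id.sub_const _).const_div _)

theorem MI_QQ {k : ℕ} [NeZero k] (f : Polynomial ℂ) (b g : ZMod k → ℂ) :
    Measurable (QQ f b g) := by
  have h : Continuous (QQ f b g) := by
    unfold QQ
    fun_prop
  exact h.measurable

theorem MI_TT (f : Polynomial ℂ) (hf : 1 ≤ f.natDegree) (q : ℂ → ℂ) (hq : Measurable q) :
    Measurable (TT f q) := by
  have h := (MS f hf).2.2 (fun y => q y / fd f y ^ 2) (hq.div ((MI_poly f.derivative).pow_const 2))
  exact h

theorem MI_pos (s : Multiset ℂ) (f : Polynomial ℂ) (q : ℂ → ℂ) :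
    ‖(s.map fun y => q y / fd f y ^ 2).sum‖ ≤ (s.map fun y => ‖q y‖ / ‖fd f y‖ ^ 2).sum := by
  induction s using Multiset.induction_on with
  | empty => simp
  | cons a s ih =>
    simp only [Multiset.map_cons, Multiset.sum_cons]
    refine (norm_add_le _ _).trans ?_
    rw [norm_div, norm_pow]
    linarith

theorem MI : MI_stmt := by
  intro k _ f b g hf
  have h1 := MI_BB b g
  have h2 := MI_TT f hf (BB b g) h1
  refine ⟨h1, h2, h1.sub h2, ?_, ?_, MI_TT f hf _ (MI_QQ f b g)⟩
  · have h3 := (MS f hf).2.1 (fun y => ‖BB b g y‖ / ‖fd f y‖ ^ 2)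
      (h1.norm.div ((MI_poly f.derivative).norm.pow_const 2))
    exact h3.sub h2.norm
  · intro z
    unfold Df
    have h4 := MI_pos (pre f z) f (BB b g)
    unfold TT
    linarith

end PPS
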